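import Mathlib
import Pool.Agent.H174.GP.StP

set_option autoImplicit false

open MeasureTheory ProbabilityTheory Finset

namespace Pool.Agent.H653.GP174

open Pool.Agent.H174.GP

theorem gp_cheb (h1 : S_levy) (h2 : S_var) : Pool.Agent.H174.GP.S_cheb := by
  intro a b φ t hab ht hm hodd hint
  have hL := h1 a b φ t hab hm hodd
  obtain ⟨hv, hi4, -⟩ := h2 (Finset.Ioc a b) φ hm hodd hint
  refine hL.trans ?_
  set S : (ℕ → ℝ) → ℝ := fun ω => ∑ j ∈ Finset.Ioc a b, φ j (ω j) with hS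
  have hSm : Measurable S := by
    apply Finset.measurable_sum
    intro j hj
    exact (hm j hj).comp (measurable_pi_apply j)
  have hi2 : Integrable (fun ω => (S ω) ^ 2) PP := by
    have hg : Integrable (fun ω => 1 + (S ω) ^ 4) PP := (integrable_const (1 : ℝ)).add hi4
    refine hg.mono' (hSm.pow_const 2).aestronglyMeasurable ?_
    refine Filter.Eventually.of_forall (fun ω => ?_)
    rw [Real.norm_eq_abs, abs_of_nonneg (sq_nonneg _)]
    nlinarith [sq_nonneg ((S ω) ^ 2 - 1), sq_nonneg (S ω ^ 2)]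
  have hmk := mul_meas_ge_le_integral_of_nonneg (μ := PP)
    (Filter.Eventually.of_forall (fun ω => sq_nonneg (S ω))) hi2 (t ^ 2)
  have hset : {ω : ℕ → ℝ | t ≤ |S ω|} ⊆ {ω | t ^ 2 ≤ (S ω) ^ 2} := by
    intro ω hω
    simp only [Set.mem_ofPred_eq] at hω ⊢
    rw [← sq_abs (S ω)]
    exact pow_le_pow_left₀ ht.le hω 2
  have hmono : PP.real {ω : ℕ → ℝ | t ≤ |S ω|} ≤ PP.real {ω | t ^ 2 ≤ (S ω) ^ 2} :=
    measureReal_mono hset
  have ht2 : 0 < t ^ 2 := by positivity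
  rw [le_div_iff₀ ht2]
  have hv' : (∫ ω, (S ω) ^ 2 ∂PP) = ∑ j ∈ Finset.Ioc a b, ∫ x, (φ j x) ^ 2 ∂lap := hv
  rw [← hv']
  nlinarith [mul_le_mul_of_nonneg_left hmono ht2.le]

end Pool.Agent.H653.GP174
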