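import Mathlib
import Pool.Agent.H174.GP.StA
import Pool.Agent.H174.GP.StP
import Pool.Agent.H174.GP.StC

set_option autoImplicit false

open MeasureTheory ProbabilityTheory Finset Filter Topology

namespace Pool.Agent.H653.GP174

open Pool.Agent.H174.GP

theorem Ch_eq (ω : ℕ → ℝ) (L x : ℕ) :
    Ch ω L x = ∑ j ∈ Finset.Icc 1 L, ((min j x : ℕ) : ℝ) * (ω j / (j : ℝ)) := rfl

theorem Ch_meas (L x : ℕ) : Measurable (fun ω : ℕ → ℝ => Ch ω L x) := by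
  simp only [Ch_eq]
  apply Finset.measurable_sum
  intro j _
  exact ((measurable_pi_apply j).div_const _).const_mul _

theorem Ch_dep (ω ω' : ℕ → ℝ) (L x : ℕ) (h : ∀ j ∈ Finset.Icc 1 L, ω j = ω' j) :
    Ch ω L x = Ch ω' L x := by
  rw [Ch_eq, Ch_eq]
  apply Finset.sum_congr rfl
  intro j hj
  rw [h j hj]

theorem Ch_mono (ω ω' : ℕ → ℝ) (L x : ℕ) (h : ω ≤ ω') : Ch ω L x ≤ Ch ω' L x := by
  rw [Ch_eq, Ch_eq]
  apply Finset.sum_le_sum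
  intro j _
  apply mul_le_mul_of_nonneg_left _ (Nat.cast_nonneg _)
  exact div_le_div_of_nonneg_right (h j) (Nat.cast_nonneg _)

theorem ev_meas (L : ℕ) (X : Finset ℕ) :
    MeasurableSet {ω : ℕ → ℝ | ∀ x ∈ X, 0 ≤ Ch ω L x} := by
  have : {ω : ℕ → ℝ | ∀ x ∈ X, 0 ≤ Ch ω L x} = ⋂ x ∈ X, {ω : ℕ → ℝ | 0 ≤ Ch ω L x} := by
    ext ω
    simp
  rw [this]
  exact Finset.measurableSet_biInter X fun x _ => measurableSet_le measurable_const (Ch_meas L x)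

theorem ev_dep (L : ℕ) (X : Finset ℕ) :
    DepOn (Finset.Icc 1 L) {ω : ℕ → ℝ | ∀ x ∈ X, 0 ≤ Ch ω L x} := by
  intro ω ω' h hω x hx
  rw [← Ch_dep ω ω' L x h]
  exact hω x hx

theorem ev_upper (L : ℕ) (X : Finset ℕ) :
    IsUpperSet {ω : ℕ → ℝ | ∀ x ∈ X, 0 ≤ Ch ω L x} := by
  intro ω ω' h hω x hx
  exact (hω x hx).trans (Ch_mono ω ω' L x h)

theorem harris3 (h4 : S_harrisN) (L a b : ℕ) :
    PP.real {ω : ℕ → ℝ | ∀ x ∈ Finset.Icc 1 a, 0 ≤ Ch ω L x} *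
      PP.real {ω : ℕ → ℝ | ∀ x ∈ Finset.Icc a b, 0 ≤ Ch ω L x} *
      PP.real {ω : ℕ → ℝ | ∀ x ∈ Finset.Icc b L, 0 ≤ Ch ω L x} ≤ uu L := by
  let F : ℕ → Set (ℕ → ℝ) := fun i =>
    {ω | ∀ x ∈ (if i = 0 then Finset.Icc 1 a else if i = 1 then Finset.Icc a b
      else Finset.Icc b L), 0 ≤ Ch ω L x}
  have h := h4 (Finset.Icc 1 L) (Finset.range 3) F (fun i _ => ev_meas L _)
    (fun i _ => ev_dep L _) (fun i _ => ev_upper L _)
  rw [Finset.prod_range_succ, Finset.prod_range_succ, Finset.prod_range_succ,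
    Finset.prod_range_zero, one_mul] at h
  refine le_trans h ?_
  unfold uu
  refine measureReal_mono ?_ (measure_ne_top _ _)
  intro ω hω x hx
  simp only [Set.mem_iInter, Finset.mem_range] at hω
  have w0 := hω 0 (by norm_num)
  have w1 := hω 1 (by norm_num)
  have w2 := hω 2 (by norm_num)
  rw [Finset.mem_Icc] at hx
  rcases le_total x a with h5 | h5
  · exact w0 x (by simp only [if_true]; exact Finset.mem_Icc.mpr ⟨hx.1, h5⟩)
  rcases le_total x b with h6 | h6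
  · exact w1 x (by simp only [one_ne_zero, if_false, if_true]; exact Finset.mem_Icc.mpr ⟨h5, h6⟩)
  · exact w2 x (by
      have e1 : (2 : ℕ) ≠ 0 := by norm_num
      have e2 : (2 : ℕ) ≠ 1 := by norm_num
      rw [if_neg e1, if_neg e2]; exact Finset.mem_Icc.mpr ⟨h6, hx.2⟩)

/-- the asymptotic part about `x0` -/
theorem x0_bound (A δ q : ℝ) (hA : 0 ≤ A) (hδ : 0 < δ) (hq : 0 < q) :
    ∃ C2 : ℝ, 1 ≤ C2 ∧ ∀ n : ℕ, 2 ≤ n →
      ((⌈(41 * (2 * (A + 1) * Real.log n) ^ (3 / 2 : ℝ) / δ) ^ 4⌉₊ : ℕ) : ℝ) ≤ C2 * (n : ℝ) ^ q := by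
  refine ⟨(41 / δ) ^ 4 * (2 * (A + 1) / (q / 6)) ^ 6 + 1, ?_, ?_⟩
  · have : 0 ≤ (41 / δ) ^ 4 * (2 * (A + 1) / (q / 6)) ^ 6 := by positivity
    linarith
  intro n hn
  have hn1 : (1 : ℝ) ≤ n := by exact_mod_cast (by omega : 1 ≤ n)
  have hn0 : (0 : ℝ) < n := by linarith
  have hlog : 0 ≤ Real.log n := Real.log_nonneg hn1
  have hl0 : 0 ≤ 2 * (A + 1) * Real.log n := by positivity
  have h1 : Real.log n ≤ (n : ℝ) ^ (q / 6) / (q / 6) :=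
    Real.log_le_rpow_div hn0.le (by positivity)
  have h2 : 2 * (A + 1) * Real.log n ≤ 2 * (A + 1) / (q / 6) * (n : ℝ) ^ (q / 6) := by
    have := mul_le_mul_of_nonneg_left h1 (show 0 ≤ 2 * (A + 1) by positivity)
    calc 2 * (A + 1) * Real.log n ≤ 2 * (A + 1) * ((n : ℝ) ^ (q / 6) / (q / 6)) := this
      _ = _ := by ring
  have h3 : ((2 * (A + 1) * Real.log n) ^ (3 / 2 : ℝ)) ^ 4 = (2 * (A + 1) * Real.log n) ^ 6 := by
    rw [← Real.rpow_natCast, ← Real.rpow_mul hl0, ← Real.rpow_natCast]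
    norm_num
  have h4 : (2 * (A + 1) * Real.log n) ^ 6 ≤ (2 * (A + 1) / (q / 6)) ^ 6 * (n : ℝ) ^ q := by
    have h5 := pow_le_pow_left₀ hl0 h2 6
    rw [mul_pow (2 * (A + 1) / (q / 6))] at h5
    have h6 : ((n : ℝ) ^ (q / 6)) ^ 6 = (n : ℝ) ^ q := by
      rw [← Real.rpow_natCast, ← Real.rpow_mul hn0.le]
      congr 1
      push_cast
      ring
    rw [h6] at h5
    exact h5
  have h7 : (41 * (2 * (A + 1) * Real.log n) ^ (3 / 2 : ℝ) / δ) ^ 4 ≤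
      (41 / δ) ^ 4 * (2 * (A + 1) / (q / 6)) ^ 6 * (n : ℝ) ^ q := by
    calc (41 * (2 * (A + 1) * Real.log n) ^ (3 / 2 : ℝ) / δ) ^ 4
        = (41 / δ) ^ 4 * ((2 * (A + 1) * Real.log n) ^ (3 / 2 : ℝ)) ^ 4 := by ring
      _ = (41 / δ) ^ 4 * (2 * (A + 1) * Real.log n) ^ 6 := by rw [h3]
      _ ≤ (41 / δ) ^ 4 * ((2 * (A + 1) / (q / 6)) ^ 6 * (n : ℝ) ^ q) :=
          mul_le_mul_of_nonneg_left h4 (by positivity)
      _ = _ := by ring
  have h8 := (Nat.ceil_lt_add_one (show 0 ≤ (41 * (2 * (A + 1) * Real.log n) ^ (3 / 2 : ℝ) / δ) ^ 4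
    by positivity)).le
  have h9 : 1 ≤ (n : ℝ) ^ q := Real.one_le_rpow hn1 hq.le
  calc _ ≤ _ := h8
    _ ≤ (41 / δ) ^ 4 * (2 * (A + 1) / (q / 6)) ^ 6 * (n : ℝ) ^ q + (n : ℝ) ^ q := by linarith
    _ = _ := by ring

theorem ev_large (q M : ℝ) (hq : 0 < q) : ∃ n0 : ℕ, ∀ n ≥ n0, M ≤ (n : ℝ) ^ q := by
  have h := (tendsto_rpow_atTop hq).comp (tendsto_natCast_atTop_atTop (R := ℝ))
  have h2 := h.eventually_ge_atTop M
  rw [Filter.eventually_atTop] at h2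
  exact h2

theorem gp_super (h1 : S_step) (h2 : S_coarse) (h3 : S_shiftC) (h4 : S_harrisN) :
    Pool.Agent.H174.GP.S_super := by
  obtain ⟨c, hc, κ1, hκ, -, s2, s3, s4, s5⟩ := h1
  intro ε hε hε1
  obtain ⟨e, he⟩ : ∃ e : ℝ, e = ε / 4 := ⟨_, rfl⟩
  have he0 : 0 < e := by rw [he]; linarith
  have he1 : e ≤ 1 / 4 := by rw [he]; linarith
  obtain ⟨δ, hδ⟩ : ∃ δ : ℝ, δ = e / 4 := ⟨_, rfl⟩
  have hδ0 : 0 < δ := by rw [hδ]; linarith
  obtain ⟨A, hA⟩ : ∃ A : ℝ, A = 2 * κ1 + 3 := ⟨_, rfl⟩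
  have hA0 : 0 ≤ A := by rw [hA]; linarith
  obtain ⟨q, hq⟩ : ∃ q : ℝ, q = e / (2 * (κ1 + 1)) := ⟨_, rfl⟩
  have hq0 : 0 < q := by rw [hq]; positivity
  have hqκ : q * κ1 ≤ e / 2 := by
    rw [hq, div_mul_eq_mul_div, div_le_iff₀ (by positivity)]
    nlinarith
  have hq1 : q ≤ 1 / 2 := by
    rw [hq, div_le_iff₀ (by positivity)]
    nlinarith
  obtain ⟨C2, hC2, hx0⟩ := x0_bound A δ q hA0 hδ0 hq0
  have hC20 : 0 < C2 := by linarith
  -- constants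
  obtain ⟨M1, hM1⟩ : ∃ M1 : ℝ, M1 = 1 / 2 * c ^ (1 + e) * Real.exp (-(e / 4)) := ⟨_, rfl⟩
  have hM1p : 0 < M1 := by rw [hM1]; positivity
  obtain ⟨M2, hM2⟩ : ∃ M2 : ℝ, M2 = c / 4 * Real.exp (-(e / 4)) * C2 ^ (-κ1) := ⟨_, rfl⟩
  have hM2p : 0 < M2 := by rw [hM2]; positivity
  obtain ⟨n1, hn1⟩ := ev_large 1 (40 / M1) one_pos
  obtain ⟨n2, hn2⟩ := ev_large e (1 / M2) he0
  obtain ⟨n3, hn3⟩ := ev_large (1 / 2) C2 (by norm_num)
  refine ⟨max 2 (max n1 (max n2 n3)), le_max_left _ _, ?_⟩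
  intro n hn K hK
  have hn2' : 2 ≤ n := le_trans (le_max_left _ _) hn
  have g1 : n1 ≤ n := le_trans (le_trans (le_max_left _ _) (le_max_right _ _)) hn
  have g2 : n2 ≤ n :=
    le_trans (le_trans (le_trans (le_max_left _ _) (le_max_right _ _)) (le_max_right _ _)) hn
  have g3 : n3 ≤ n :=
    le_trans (le_trans (le_trans (le_max_right _ _) (le_max_right _ _)) (le_max_right _ _)) hn
  have G1 := hn1 n g1
  have G2 := hn2 n g2
  have G3 := hn3 n g3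
  have hnr : (2 : ℝ) ≤ n := by exact_mod_cast hn2'
  have hnp : (0 : ℝ) < n := by linarith
  have hn1r : (1 : ℝ) ≤ n := by linarith
  rw [Real.rpow_one] at G1
  set y := (41 * (2 * (A + 1) * Real.log n) ^ (3 / 2 : ℝ) / δ) ^ 4 with hy
  have hlogpos : 1 / 2 ≤ Real.log n := by
    have := Real.log_le_log (by norm_num) hnr
    have h22 := Real.log_two_gt_d9
    linarith
  have hypos : 0 < y := by
    have : 0 < 2 * (A + 1) * Real.log n := by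
      have : 0 < Real.log n := by linarith
      positivity
    rw [hy]
    positivity
  obtain ⟨x0, hx0d⟩ : ∃ x0 : ℕ, x0 = ⌈y⌉₊ := ⟨_, rfl⟩
  have hx01 : 1 ≤ x0 := by
    rw [hx0d]
    exact Nat.one_le_ceil_iff.mpr hypos
  have hyx0 : y ≤ x0 := by rw [hx0d]; exact Nat.le_ceil y
  have hx0C : (x0 : ℝ) ≤ C2 * (n : ℝ) ^ q := by
    rw [hx0d]
    exact hx0 n hn2'
  have hx0n : x0 ≤ n := by
    have h5 : (x0 : ℝ) ≤ n := by
      calc (x0 : ℝ) ≤ C2 * (n : ℝ) ^ q := hx0C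
        _ ≤ (n : ℝ) ^ (1 / 2 : ℝ) * (n : ℝ) ^ (1 / 2 : ℝ) := by
            apply mul_le_mul G3 (Real.rpow_le_rpow_of_exponent_le hn1r hq1) (by positivity)
              (by positivity)
        _ = n := by
            rw [← Real.rpow_add hnp]
            norm_num
    exact_mod_cast h5
  -- the three factors
  have hKn : K ≤ K * n := Nat.le_mul_of_pos_right K (by omega)
  have P1 := s2 K (K * n) hK hKn
  have P2 := s3 K (K * x0) (K * n) hK (Nat.le_mul_of_pos_right K hx01)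
    (Nat.mul_le_mul_left K hx0n)
  have hl1 : 1 ≤ 2 * (A + 1) * Real.log n := by nlinarith
  have P3 := h2 K n x0 A δ hK hn2' hx01 hA0 hδ0 hl1 hyx0
  have P4 := h3 e δ n (Finset.Icc 1 n) (fun _ => 0) he0 (by linarith) hδ0 (by rw [hδ]) (by omega)
    (Finset.Subset.refl _)
  have P5 : PP.real {ω | ∀ x ∈ Finset.Icc 1 n, (fun _ : ℕ => (0 : ℝ)) x + δ * Real.sqrt x ≤ Ch ω n x}
      ≤ PP.real {ω | ∀ x ∈ Finset.Icc x0 n, δ * Real.sqrt x ≤ Ch ω n x} := by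
    refine measureReal_mono ?_ (measure_ne_top _ _)
    intro ω hω x hx
    rw [Finset.mem_Icc] at hx
    have := hω x (Finset.mem_Icc.mpr ⟨by omega, hx.2⟩)
    simpa using this
  have huu : PP.real {ω | ∀ x ∈ Finset.Icc 1 n, (fun _ : ℕ => (0 : ℝ)) x ≤ Ch ω n x} = uu n := rfl
  rw [huu] at P4
  obtain ⟨u, hu⟩ : ∃ u : ℝ, u = uu n := ⟨_, rfl⟩
  have hun := s4 n (by omega)
  rw [← hu] at P4 hun
  have hu1 : u ≤ 1 := by rw [hu]; exact s5 n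
  have hu0 : 0 < u := lt_of_lt_of_le (by positivity) hun
  have hexp : Real.exp (-((4 / e) * (δ ^ 2 * (1 + Real.log n)))) =
      Real.exp (-(e / 4)) * (n : ℝ) ^ (-(e / 4)) := by
    rw [Real.rpow_def_of_pos hnp, ← Real.exp_add]
    congr 1
    rw [hδ]
    field_simp
    ring
  rw [hexp] at P4
  obtain ⟨T3, hT3⟩ : ∃ T3 : ℝ, T3 = PP.real {ω | ∀ y ∈ Finset.Icc (K * x0) (K * n),
    0 ≤ Ch ω (K * n) y} := ⟨_, rfl⟩
  rw [← hT3] at P3
  have hharris := harris3 h4 (K * n) K (K * x0)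
  rw [← hT3] at hharris
  -- E3
  have E3 : 40 * (n : ℝ) ^ (-A) ≤
      1 / 2 * (u ^ (1 + e) * (Real.exp (-(e / 4)) * (n : ℝ) ^ (-(e / 4)))) := by
    have a1 : c ^ (1 + e) * (n : ℝ) ^ (-κ1 * (1 + e)) ≤ u ^ (1 + e) := by
      have := Real.rpow_le_rpow (by positivity) hun (show 0 ≤ 1 + e by linarith)
      rw [Real.mul_rpow hc.le (by positivity), ← Real.rpow_mul hnp.le] at this
      exact this
    have a2 : (n : ℝ) ^ (-A) * n ≤ (n : ℝ) ^ (-κ1 * (1 + e)) * (n : ℝ) ^ (-(e / 4)) := by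
      rw [← Real.rpow_add hnp]
      calc (n : ℝ) ^ (-A) * n = (n : ℝ) ^ (-A + 1) := by
            rw [Real.rpow_add hnp, Real.rpow_one]
        _ ≤ _ := by
            apply Real.rpow_le_rpow_of_exponent_le hn1r
            rw [hA]
            nlinarith
    have a3 : 40 ≤ M1 * n := by
      rw [div_le_iff₀ hM1p] at G1
      linarith
    have hnA : 0 < (n : ℝ) ^ (-A) := by positivity
    calc 40 * (n : ℝ) ^ (-A) ≤ M1 * n * (n : ℝ) ^ (-A) := mul_le_mul_of_nonneg_right a3 hnA.le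
      _ = M1 * ((n : ℝ) ^ (-A) * n) := by ring
      _ ≤ M1 * ((n : ℝ) ^ (-κ1 * (1 + e)) * (n : ℝ) ^ (-(e / 4))) :=
          mul_le_mul_of_nonneg_left a2 hM1p.le
      _ = 1 / 2 * ((c ^ (1 + e) * (n : ℝ) ^ (-κ1 * (1 + e))) *
            (Real.exp (-(e / 4)) * (n : ℝ) ^ (-(e / 4)))) := by rw [hM1]; ring
      _ ≤ _ := by
          apply mul_le_mul_of_nonneg_left _ (by norm_num)
          exact mul_le_mul_of_nonneg_right a1 (by positivity)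
  have E4 : 1 / 2 * (u ^ (1 + e) * (Real.exp (-(e / 4)) * (n : ℝ) ^ (-(e / 4)))) ≤ T3 := by
    linarith [P4.trans P5]
  have hKp : (0 : ℝ) < K := by exact_mod_cast (by omega : 0 < K)
  have hx0p : (0 : ℝ) < x0 := by exact_mod_cast (by omega : 0 < x0)
  have E5 : C2 ^ (-κ1) * (n : ℝ) ^ (-(e / 2)) ≤ ((K : ℝ) / ((K * x0 : ℕ) : ℝ)) ^ κ1 := by
    have b1 : (K : ℝ) / ((K * x0 : ℕ) : ℝ) = (x0 : ℝ)⁻¹ := by
      push_cast
      field_simp
    rw [b1, Real.inv_rpow hx0p.le, ← Real.rpow_neg hx0p.le]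
    calc C2 ^ (-κ1) * (n : ℝ) ^ (-(e / 2)) ≤ C2 ^ (-κ1) * (n : ℝ) ^ (q * -κ1) := by
          apply mul_le_mul_of_nonneg_left _ (by positivity)
          apply Real.rpow_le_rpow_of_exponent_le hn1r
          linarith
      _ = (C2 * (n : ℝ) ^ q) ^ (-κ1) := by
          rw [Real.mul_rpow hC20.le (by positivity), ← Real.rpow_mul hnp.le]
      _ ≤ (x0 : ℝ) ^ (-κ1) := Real.rpow_le_rpow_of_nonpos hx0p hx0C (by linarith)
  have hu5 : 0 ≤ uu K := by unfold uu; exact measureReal_nonneg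
  have E6 : u ^ (1 + ε) ≤ u ^ (1 + e) := by
    apply Real.rpow_le_rpow_of_exponent_ge hu0 hu1
    rw [he]; linarith
  have E7 : (n : ℝ) ^ (-ε) ≤ M2 * ((n : ℝ) ^ (-(e / 2)) * (n : ℝ) ^ (-(e / 4))) := by
    rw [← Real.rpow_add hnp]
    rw [div_le_iff₀ hM2p] at G2
    have hne : 0 < (n : ℝ) ^ (-ε) := by positivity
    calc (n : ℝ) ^ (-ε) = 1 * (n : ℝ) ^ (-ε) := (one_mul _).symm
      _ ≤ ((n : ℝ) ^ e * M2) * (n : ℝ) ^ (-ε) := mul_le_mul_of_nonneg_right G2 hne.le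
      _ = M2 * ((n : ℝ) ^ e * (n : ℝ) ^ (-ε)) := by ring
      _ = M2 * (n : ℝ) ^ (e + -ε) := by rw [Real.rpow_add hnp]
      _ ≤ _ := by
          apply mul_le_mul_of_nonneg_left _ hM2p.le
          apply Real.rpow_le_rpow_of_exponent_le hn1r
          rw [he]; linarith
  -- assemble
  have F2 : c * (C2 ^ (-κ1) * (n : ℝ) ^ (-(e / 2))) ≤
      PP.real {ω | ∀ x ∈ Finset.Icc K (K * x0), 0 ≤ Ch ω (K * n) x} :=
    (mul_le_mul_of_nonneg_left E5 hc.le).trans P2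
  have hw3 : 0 ≤ 1 / 2 * (u ^ (1 + e) * (Real.exp (-(e / 4)) * (n : ℝ) ^ (-(e / 4)))) := by
    positivity
  have hw2 : 0 ≤ c * (C2 ^ (-κ1) * (n : ℝ) ^ (-(e / 2))) := by positivity
  have hprod : uu K / 2 * (c * (C2 ^ (-κ1) * (n : ℝ) ^ (-(e / 2)))) *
      (1 / 2 * (u ^ (1 + e) * (Real.exp (-(e / 4)) * (n : ℝ) ^ (-(e / 4))))) ≤ uu (K * n) := by
    refine le_trans ?_ hharris
    apply mul_le_mul _ E4 hw3 (by positivity)
    exact mul_le_mul P1 F2 hw2 measureReal_nonneg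
  rw [← hu]
  calc uu K * u ^ (1 + ε) * (n : ℝ) ^ (-ε)
      ≤ uu K * u ^ (1 + e) * (M2 * ((n : ℝ) ^ (-(e / 2)) * (n : ℝ) ^ (-(e / 4)))) := by
        apply mul_le_mul _ E7 (by positivity) (by positivity)
        exact mul_le_mul_of_nonneg_left E6 hu5
    _ = uu K / 2 * (c * (C2 ^ (-κ1) * (n : ℝ) ^ (-(e / 2)))) *
      (1 / 2 * (u ^ (1 + e) * (Real.exp (-(e / 4)) * (n : ℝ) ^ (-(e / 4))))) := by
        rw [hM2]; ring
    _ ≤ _ := hprod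

end Pool.Agent.H653.GP174
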